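import Mathlib

set_option autoImplicit false

namespace Pool.Agent.Helper878.Prim

/-! ## Words in an arbitrary group -/

section words
variable {G : Type*} [Group G]

/-- the commutator -/
def cc (a b : G) : G := a * b * a⁻¹ * b⁻¹

/-- conjugation -/
def cj (g n : G) : G := g * n * g⁻¹

/-- the word `[z,[z,t]]` with `z = [x,y]` -/
def PT (x y t : G) : G := cc (cc x y) (cc (cc x y) t)

/-- the element `h = π_x⁻¹ (y⁻¹ π_y⁻¹ y) x` -/
def hw (x y : G) : G := (PT x y x)⁻¹ * cj y⁻¹ (PT x y y)⁻¹ * x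

/-- `ρ = π_x (y⁻¹ π_y y)` -/
def rho (x y : G) : G := PT x y x * cj y⁻¹ (PT x y y)

/-- first family of moves -/
def D1 (p x y : G) : G := p * cj x p * (cj y p)⁻¹ * (cj (y * x) p)⁻¹ * x
def D2 (p y : G) : G := p⁻¹ * cj (y * y) p * y
/-- second family of moves -/
def B1 (p x : G) : G := p * cj x p * (cj (x * x) p)⁻¹ * (cj (x * x * x) p)⁻¹ * x
def B2 (p x y : G) : G :=
  p⁻¹ * (cj y p)⁻¹ * (cj (y * x) p)⁻¹ * cj (x * y) p * cj (x * x) p * cj (x * y * x) p * y

def mD (e : ℤ) (τ : G × G × G) : G × G × G :=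
  (D1 ((PT τ.1 τ.2.1 τ.2.2) ^ e) τ.1 τ.2.1, D2 ((PT τ.1 τ.2.1 τ.2.2) ^ e) τ.2.1, τ.2.2)
def mB (e : ℤ) (τ : G × G × G) : G × G × G :=
  (B1 ((PT τ.1 τ.2.1 τ.2.2) ^ e) τ.1, B2 ((PT τ.1 τ.2.1 τ.2.2) ^ e) τ.1 τ.2.1, τ.2.2)
def mC (e : ℤ) (τ : G × G × G) : G × G × G :=
  (τ.1, τ.2.1, (rho τ.1 τ.2.1) ^ e * τ.2.2)

/-- the translation part used in the final conjugation -/
def iw (p x y : G) : G :=
  (cj (x * x) p)⁻¹ * cj y p * cj (x * x * y) p * cj y⁻¹ p * cj (x * y⁻¹) p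
def nw (x y t : G) : G :=
  rho x y * cj y (rho x y) * iw (PT x y t) x y * cj x (iw (PT x y t) x y)

end words

section nat
variable {G H : Type*} [Group G] [Group H] (f : G →* H)

theorem map_cc (a b : G) : f (cc a b) = cc (f a) (f b) := by simp [cc]
theorem map_cj (a b : G) : f (cj a b) = cj (f a) (f b) := by simp [cj]
theorem map_PT (a b c : G) : f (PT a b c) = PT (f a) (f b) (f c) := by simp [PT, map_cc]
theorem map_hw (a b : G) : f (hw a b) = hw (f a) (f b) := by simp [hw, map_PT, map_cj]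
theorem map_rho (a b : G) : f (rho a b) = rho (f a) (f b) := by simp [rho, map_PT, map_cj]
theorem map_D1 (p a b : G) : f (D1 p a b) = D1 (f p) (f a) (f b) := by simp [D1, map_cj]
theorem map_D2 (p a : G) : f (D2 p a) = D2 (f p) (f a) := by simp [D2, map_cj]
theorem map_B1 (p a : G) : f (B1 p a) = B1 (f p) (f a) := by simp [B1, map_cj]
theorem map_B2 (p a b : G) : f (B2 p a b) = B2 (f p) (f a) (f b) := by simp [B2, map_cj]
theorem map_iw (p a b : G) : f (iw p a b) = iw (f p) (f a) (f b) := by simp [iw, map_cj]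
theorem map_nw (a b c : G) : f (nw a b c) = nw (f a) (f b) (f c) := by
  simp [nw, map_cj, map_rho, map_iw, map_PT]

/-- apply a homomorphism to a triple -/
def m3 (τ : G × G × G) : H × H × H := (f τ.1, f τ.2.1, f τ.2.2)

theorem m3_mD (e : ℤ) (τ : G × G × G) : m3 f (mD e τ) = mD e (m3 f τ) := by
  simp [m3, mD, map_D1, map_D2, map_PT]
theorem m3_mB (e : ℤ) (τ : G × G × G) : m3 f (mB e τ) = mB e (m3 f τ) := by
  simp [m3, mB, map_B1, map_B2, map_PT]
theorem m3_mC (e : ℤ) (τ : G × G × G) : m3 f (mC e τ) = mC e (m3 f τ) := by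
  simp [m3, mC, map_rho]

end nat

/-! ## The affine group -/

section aff
variable {Λ : Type*} [Ring Λ] (Γ : Subgroup Λˣ)

/-- the semidirect product of the additive group of `Λ` with the group `Γ` of units -/
@[ext] structure Aff where
  u : Γ
  v : Λ

variable {Γ}

/-- the linear part as an element of the ring -/
def Aff.c (a : Aff Γ) : Λ := ((a.u : Λˣ) : Λ)
/-- the inverse of the linear part as an element of the ring -/
def Aff.ci (a : Aff Γ) : Λ := (((a.u)⁻¹ : Γ) : Λˣ)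

instance : Mul (Aff Γ) := ⟨fun a b => ⟨a.u * b.u, a.v + a.c * b.v⟩⟩
instance : One (Aff Γ) := ⟨⟨1, 0⟩⟩
instance : Inv (Aff Γ) := ⟨fun a => ⟨a.u⁻¹, -(a.ci * a.v)⟩⟩

@[simp] theorem mul_u (a b : Aff Γ) : (a * b).u = a.u * b.u := rfl
@[simp] theorem mul_v (a b : Aff Γ) : (a * b).v = a.v + a.c * b.v := rfl
@[simp] theorem one_u : (1 : Aff Γ).u = 1 := rfl
@[simp] theorem one_v : (1 : Aff Γ).v = 0 := rfl
@[simp] theorem inv_u (a : Aff Γ) : (a⁻¹).u = a.u⁻¹ := rfl
@[simp] theorem inv_v (a : Aff Γ) : (a⁻¹).v = -(a.ci * a.v) := rfl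
@[simp] theorem mul_c (a b : Aff Γ) : (a * b).c = a.c * b.c := by simp [Aff.c]
@[simp] theorem one_c : (1 : Aff Γ).c = 1 := by simp [Aff.c]
@[simp] theorem inv_c (a : Aff Γ) : (a⁻¹).c = a.ci := by simp [Aff.c, Aff.ci]
@[simp] theorem ci_mul_c (a : Aff Γ) : a.ci * a.c = 1 := by simp [Aff.c, Aff.ci]
@[simp] theorem c_mul_ci (a : Aff Γ) : a.c * a.ci = 1 := by simp [Aff.c, Aff.ci]
@[simp] theorem mk_c (u : Γ) (v : Λ) : (Aff.mk u v : Aff Γ).c = ((u : Λˣ) : Λ) := rfl

instance : Group (Aff Γ) := Group.ofLeftAxioms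
  (by
    intro a b c
    ext
    · simp [mul_assoc]
    · simp [mul_assoc, mul_add, add_assoc])
  (by
    intro a
    ext <;> simp)
  (by
    intro a
    ext <;> simp)

@[simp] theorem inv_ci (a : Aff Γ) : (a⁻¹).ci = a.c := by simp [Aff.c, Aff.ci]
@[simp] theorem mul_ci (a b : Aff Γ) : (a * b).ci = b.ci * a.ci := by simp [Aff.ci]

theorem ext_c {a b : Aff Γ} (hc : a.c = b.c) (hv : a.v = b.v) : a = b := by
  ext
  · exact hc
  · exact hv

/-- translations -/
def tr (n : Λ) : Aff Γ := ⟨1, n⟩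

@[simp] theorem tr_c (n : Λ) : (tr n : Aff Γ).c = 1 := by simp [tr, Aff.c]
@[simp] theorem tr_v (n : Λ) : (tr n : Aff Γ).v = n := rfl
@[simp] theorem tr_ci (n : Λ) : (tr n : Aff Γ).ci = 1 := by simp [tr, Aff.ci]
@[simp] theorem tr_zero : (tr 0 : Aff Γ) = 1 := rfl
theorem tr_mul (n m : Λ) : (tr n : Aff Γ) * tr m = tr (n + m) := by
  apply ext_c <;> simp
theorem tr_inv (n : Λ) : (tr n : Aff Γ)⁻¹ = tr (-n) := by
  apply ext_c <;> simp
theorem cj_tr (a : Aff Γ) (n : Λ) : cj a (tr n) = tr (a.c * n) := by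
  apply ext_c
  · simp [cj]
  · simp only [cj, mul_v, mul_c, tr_v, tr_c, inv_v, mul_one]
    rw [mul_neg, ← mul_assoc a.c a.ci, c_mul_ci]; noncomm_ring

theorem cc_c (a b : Aff Γ) : (cc a b).c = a.c * b.c * a.ci * b.ci := by simp [cc]

theorem cc_v (a b : Aff Γ) : (cc a b).v =
    a.v + a.c * b.v - a.c * b.c * a.ci * a.v - a.c * b.c * a.ci * b.ci * b.v := by
  simp only [cc, mul_v, mul_c, inv_v, inv_c]
  noncomm_ring

/-- commuting linear parts: the words `PT` vanish -/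
theorem PT_comm {x y t : Aff Γ} (h : x.c * y.c = y.c * x.c) : PT x y t = 1 := by
  have hz : (cc x y).c = 1 := by
    rw [cc_c, h, mul_assoc y.c, c_mul_ci, mul_one, c_mul_ci]
  have hzi : (cc x y).ci = 1 := by
    have := ci_mul_c (cc x y)
    rw [hz, mul_one] at this
    exact this
  have h1 : (cc (cc x y) t).c = 1 := by
    rw [cc_c, hz, hzi]; simp
  have h1i : (cc (cc x y) t).ci = 1 := by
    have := ci_mul_c (cc (cc x y) t)
    rw [h1, mul_one] at this
    exact this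
  apply ext_c
  · rw [PT, cc_c, hz, hzi, h1, h1i]; simp
  · rw [PT, cc_v, hz, hzi, h1, h1i]; simp

/-- anticommuting linear parts: value of the words `PT` -/
theorem PT_anti (h3 : (3 : Λ) = 0) {x y : Aff Γ} (h : x.c * y.c = -(y.c * x.c)) (t : Aff Γ) :
    PT x y t = tr (t.v - (t.c - 1) * ((1 + y.c) * x.v + (1 + x.c) * y.v)) := by
  have hz : (cc x y).c = -1 := by
    rw [cc_c, h]
    have : -(y.c * x.c) * x.ci * y.ci = -(y.c * (x.c * x.ci) * y.ci) := by noncomm_ring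
    rw [this, c_mul_ci, mul_one, c_mul_ci]
  have hzi : (cc x y).ci = -1 := by
    have := ci_mul_c (cc x y)
    rw [hz, mul_neg, mul_one] at this
    rw [← this, neg_neg]
  have hxyx : x.c * y.c * x.ci = - y.c := by
    rw [h, neg_mul, mul_assoc, c_mul_ci, mul_one]
  have hxyxy : x.c * y.c * x.ci * y.ci = - 1 := by
    rw [hxyx, neg_mul, c_mul_ci]
  have hzv : (cc x y).v = (1 + y.c) * x.v + (1 + x.c) * y.v := by
    rw [cc_v, hxyxy, hxyx]; noncomm_ring
  have h1 : (cc (cc x y) t).c = 1 := by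
    rw [cc_c, hz, hzi]; simp
  have h1i : (cc (cc x y) t).ci = 1 := by
    have := ci_mul_c (cc (cc x y) t)
    rw [h1, mul_one] at this
    exact this
  have h1v : (cc (cc x y) t).v = t.v - (t.c - 1) * ((1 + y.c) * x.v + (1 + x.c) * y.v) := by
    rw [cc_v, hz, hzi, hzv]
    have e1 : (-1 : Λ) * t.c * (-1) * t.ci = 1 := by simp
    have e2 : (-1 : Λ) * t.c * (-1) = t.c := by simp
    rw [e1, e2]
    set ζ := (1 + y.c) * x.v + (1 + x.c) * y.v
    have : ζ + -1 * t.v - t.c * ζ - 1 * t.v = t.v - (t.c - 1) * ζ - 3 * t.v := by noncomm_ring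
    rw [this, h3]; simp
  apply ext_c
  · rw [PT, cc_c, hz, hzi, h1, h1i]; simp
  · rw [PT, cc_v, hz, hzi, h1, h1i, h1v, hzv]
    set ζ := (1 + y.c) * x.v + (1 + x.c) * y.v
    set m := t.v - (t.c - 1) * ζ
    have : ζ + -1 * m - -1 * 1 * -1 * ζ - -1 * 1 * -1 * 1 * m = m - 3 * m := by noncomm_ring
    rw [this, h3]; simp

/-- translations as a homomorphism -/
def trHom : Multiplicative Λ →* Aff Γ where
  toFun n := tr n.toAdd
  map_one' := rfl
  map_mul' a b := by rw [tr_mul]; rfl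

theorem tr_zpow (n : Λ) (e : ℤ) : (tr n : Aff Γ) ^ e = tr (e • n) := by
  have := map_zpow (trHom (Γ := Γ)) (Multiplicative.ofAdd n) e
  simp only [trHom, MonoidHom.coe_mk, OneHom.coe_mk, toAdd_ofAdd, toAdd_zpow] at this
  exact this.symm

theorem tr_mul_c (n : Λ) (a : Aff Γ) : (tr n * a).c = a.c := by simp
theorem tr_mul_ci (n : Λ) (a : Aff Γ) : (tr n * a).ci = a.ci := by simp
theorem tr_mul_v (n : Λ) (a : Aff Γ) : (tr n * a).v = n + a.v := by simp

theorem D1_tr (n : Λ) (x y : Aff Γ) :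
    D1 (tr n) x y = tr ((1 + x.c - y.c - y.c * x.c) * n) * x := by
  simp only [D1, cj_tr, tr_inv, tr_mul, mul_c]
  congr 2; noncomm_ring
theorem D2_tr (n : Λ) (y : Aff Γ) : D2 (tr n) y = tr ((-1 + y.c * y.c) * n) * y := by
  simp only [D2, cj_tr, tr_inv, tr_mul, mul_c]
  congr 2; noncomm_ring
theorem B1_tr (n : Λ) (x : Aff Γ) :
    B1 (tr n) x = tr ((1 + x.c - x.c * x.c - x.c * x.c * x.c) * n) * x := by
  simp only [B1, cj_tr, tr_inv, tr_mul, mul_c]
  congr 2; noncomm_ring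
theorem B2_tr (n : Λ) (x y : Aff Γ) :
    B2 (tr n) x y = tr ((-1 - y.c - y.c * x.c + x.c * y.c + x.c * x.c + x.c * y.c * x.c) * n) * y := by
  simp only [B2, cj_tr, tr_inv, tr_mul, mul_c]
  congr 2; noncomm_ring
theorem iw_tr (n : Λ) (x y : Aff Γ) :
    iw (tr n) x y = tr ((-(x.c * x.c) + y.c + x.c * x.c * y.c + y.ci + x.c * y.ci) * n) := by
  simp only [iw, cj_tr, tr_inv, tr_mul, mul_c, inv_c]
  congr 1; noncomm_ring

/-- a shift that does not change `[x,y]` -/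
theorem PT_shift (h3 : (3 : Λ) = 0) {x y : Aff Γ} (h : x.c * y.c = -(y.c * x.c)) {α β : Λ}
    (hab : (1 + y.c) * α + (1 + x.c) * β = 0) (t : Aff Γ) (γ : Λ) :
    PT (tr α * x) (tr β * y) (tr γ * t) = tr γ * PT x y t := by
  rw [PT_anti h3 (by rw [tr_mul_c, tr_mul_c]; exact h), PT_anti h3 h, tr_mul]
  simp only [tr_mul_c, tr_mul_v]
  congr 1
  have : (1 + y.c) * (α + x.v) + (1 + x.c) * (β + y.v) =
      ((1 + y.c) * α + (1 + x.c) * β) + ((1 + y.c) * x.v + (1 + x.c) * y.v) := by noncomm_ring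
  rw [this, hab, zero_add]
  noncomm_ring

theorem D_cond {g k : Λ} (h : g * k = -(k * g)) (n : Λ) :
    (1 + k) * ((1 + g - k - k * g) * n) + (1 + g) * ((-1 + k * k) * n) = 0 := by
  have h1 : ∀ w, g * (k * w) = -(k * (g * w)) := by
    intro w; rw [← mul_assoc, h, neg_mul, mul_assoc]
  simp only [mul_add, add_mul, mul_sub, sub_mul, mul_neg, neg_mul, mul_assoc, mul_one, one_mul,
    h1, h]
  abel

theorem B_cond {g k : Λ} (h : g * k = -(k * g)) (n : Λ) :
    (1 + k) * ((1 + g - g * g - g * g * g) * n) +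
      (1 + g) * ((-1 - k - k * g + g * k + g * g + g * k * g) * n) = 0 := by
  have h1 : ∀ w, g * (k * w) = -(k * (g * w)) := by
    intro w; rw [← mul_assoc, h, neg_mul, mul_assoc]
  simp only [mul_add, add_mul, mul_sub, sub_mul, mul_neg, neg_mul, mul_assoc, mul_one, one_mul,
    h1, h]
  abel

variable (hΓ : ∀ a b : Aff Γ, a.c * b.c = b.c * a.c ∨ a.c * b.c = -(b.c * a.c))
  (h3 : (3 : Λ) = 0)
include hΓ h3

theorem mD_inv (e : ℤ) (τ : Aff Γ × Aff Γ × Aff Γ) : mD (-e) (mD e τ) = τ := by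
  obtain ⟨x, y, t⟩ := τ
  rcases hΓ x y with h | h
  · have h1 : ∀ t, PT x y t = 1 := fun t => PT_comm h
    simp [mD, h1, D1, D2, cj]
  · have hp := PT_anti h3 h t
    set n := t.v - (t.c - 1) * ((1 + y.c) * x.v + (1 + x.c) * y.v) with hn
    have e1 : mD e (x, y, t) = (tr ((1 + x.c - y.c - y.c * x.c) * (e • n)) * x,
        tr ((-1 + y.c * y.c) * (e • n)) * y, t) := by
      simp only [mD, hp, tr_zpow, D1_tr, D2_tr]
    rw [e1]
    have hp' : PT (tr ((1 + x.c - y.c - y.c * x.c) * (e • n)) * x)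
        (tr ((-1 + y.c * y.c) * (e • n)) * y) t = tr n := by
      have := PT_shift h3 h (D_cond h (e • n)) t 0
      rw [tr_zero, one_mul, one_mul, hp] at this
      exact this
    simp only [mD, hp', tr_zpow, D1_tr, D2_tr, tr_mul_c, ← mul_assoc, tr_mul]
    have : ∀ a : Λ, a * (-e • n) + a * (e • n) = 0 := by intro a; simp
    simp only [this, tr_zero, one_mul]

theorem mB_inv (e : ℤ) (τ : Aff Γ × Aff Γ × Aff Γ) : mB (-e) (mB e τ) = τ := by
  obtain ⟨x, y, t⟩ := τ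
  rcases hΓ x y with h | h
  · have h1 : ∀ t, PT x y t = 1 := fun t => PT_comm h
    simp [mB, h1, B1, B2, cj]
  · have hp := PT_anti h3 h t
    set n := t.v - (t.c - 1) * ((1 + y.c) * x.v + (1 + x.c) * y.v) with hn
    have e1 : mB e (x, y, t) = (tr ((1 + x.c - x.c * x.c - x.c * x.c * x.c) * (e • n)) * x,
        tr ((-1 - y.c - y.c * x.c + x.c * y.c + x.c * x.c + x.c * y.c * x.c) * (e • n)) * y, t) := by
      simp only [mB, hp, tr_zpow, B1_tr, B2_tr]
    rw [e1]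
    have hp' : PT (tr ((1 + x.c - x.c * x.c - x.c * x.c * x.c) * (e • n)) * x)
        (tr ((-1 - y.c - y.c * x.c + x.c * y.c + x.c * x.c + x.c * y.c * x.c) * (e • n)) * y) t
          = tr n := by
      have := PT_shift h3 h (B_cond h (e • n)) t 0
      rw [tr_zero, one_mul, one_mul, hp] at this
      exact this
    simp only [mB, hp', tr_zpow, B1_tr, B2_tr, tr_mul_c, ← mul_assoc, tr_mul]
    have : ∀ a : Λ, a * (-e • n) + a * (e • n) = 0 := by intro a; simp
    simp only [this, tr_zero, one_mul]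

omit hΓ h3 in
theorem mC_inv {G : Type*} [Group G] (e : ℤ) (τ : G × G × G) : mC (-e) (mC e τ) = τ := by
  obtain ⟨x, y, t⟩ := τ
  simp [mC]

omit hΓ h3 in
theorem I2 {g k ki : Λ} (h3 : (3 : Λ) = 0) (h : g * k = -(k * g)) (hi : g * ki = -(ki * g))
    (hk : k * ki = 1) (hk' : ki * k = 1) :
    (1 + g - k - k * g) * (1 + (1 + g - g * g - g * g * g)
      + ki * (-1 - k - k * g + g * k + g * g + g * k * g)) + (1 + g - g * g - g * g * g)
      + (1 - g) * ((1 + g) * (-(g * g) + k + g * g * k + ki + g * ki)) = 0 := by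
  have h1 : ∀ w, g * (k * w) = -(k * (g * w)) := by
    intro w; rw [← mul_assoc, h, neg_mul, mul_assoc]
  have h2 : ∀ w, g * (ki * w) = -(ki * (g * w)) := by
    intro w; rw [← mul_assoc, hi, neg_mul, mul_assoc]
  have h4 : ∀ w, k * (ki * w) = w := by
    intro w; rw [← mul_assoc, hk, one_mul]
  have h5 : ∀ w, ki * (k * w) = w := by
    intro w; rw [← mul_assoc, hk', one_mul]
  simp only [mul_add, add_mul, mul_sub, sub_mul, mul_neg, neg_mul, mul_assoc, mul_one, one_mul,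
    h1, h, h2, hi, h4, h5, hk, hk', neg_neg]
  have e1 : ∀ w : Λ, (3 : ℕ) • w = 0 := by
    intro w; rw [nsmul_eq_mul]; simp [h3]
  have e2 : ∀ w : Λ, (-3 : ℤ) • w = 0 := by
    intro w; rw [zsmul_eq_mul]; simp [h3]
  have e3 : ∀ w : Λ, (-6 : ℤ) • w = 0 := by
    intro w
    have : (-6 : ℤ) • w = (-2 : ℤ) • ((3 : ℕ) • w) := by
      rw [← natCast_zsmul, smul_smul]; norm_num
    rw [this, e1, smul_zero]
  abel_nf
  simp [e2, e3, h3]

omit hΓ h3 in
/-- evaluation of `rho` -/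
theorem rho_anti {x y : Aff Γ} {p q : Λ}
    (hp : PT x y x = tr p) (hq : PT x y y = tr q) : rho x y = tr (p + y.ci * q) := by
  rw [rho, hp, hq, cj_tr, tr_mul, inv_c]

omit hΓ h3 in
theorem hw_anti {x y : Aff Γ} {p q : Λ}
    (hp : PT x y x = tr p) (hq : PT x y y = tr q) : hw x y = tr (-(p + y.ci * q)) * x := by
  rw [hw, hp, hq, tr_inv, tr_inv, cj_tr, tr_mul, inv_c]
  congr 2; noncomm_ring

theorem final (x y t : Aff Γ) :
    cj (nw x y t) (mD 1 (mC 1 (mB 1 (x, y, t)))).1 = hw x y := by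
  rcases hΓ x y with h | h
  · have h1 : ∀ t, PT x y t = 1 := fun t => PT_comm h
    have h2 : mB 1 (x, y, t) = (x, y, t) := by simp [mB, h1, B1, B2, cj]
    have h4 : mC 1 (x, y, t) = (x, y, t) := by simp [mC, h1, rho, cj]
    have h5 : mD 1 (x, y, t) = (x, y, t) := by simp [mD, h1, D1, D2, cj]
    rw [h2, h4, h5]
    simp [nw, h1, rho, iw, hw, cj]
  · obtain ⟨n, hn⟩ : ∃ n, PT x y t = tr n := ⟨_, PT_anti h3 h t⟩
    obtain ⟨p, hp⟩ : ∃ n, PT x y x = tr n := ⟨_, PT_anti h3 h x⟩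
    obtain ⟨q, hq⟩ : ∃ n, PT x y y = tr n := ⟨_, PT_anti h3 h y⟩
    set b1 : Λ := 1 + x.c - x.c * x.c - x.c * x.c * x.c with hb1
    set b2 : Λ := -1 - y.c - y.c * x.c + x.c * y.c + x.c * x.c + x.c * y.c * x.c with hb2
    have e1 : mB 1 (x, y, t) = (tr (b1 * n) * x, tr (b2 * n) * y, t) := by
      simp only [mB, hn, zpow_one, B1_tr, B2_tr, ← hb1, ← hb2]
    have s1 : ∀ t γ, PT (tr (b1 * n) * x) (tr (b2 * n) * y) (tr γ * t) = tr γ * PT x y t :=
      fun t γ => PT_shift h3 h (B_cond h n) t γ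
    have e2 : rho (tr (b1 * n) * x) (tr (b2 * n) * y) =
        tr (b1 * n + p + y.ci * (b2 * n + q)) := by
      rw [rho, s1, s1, hp, hq, tr_mul, tr_mul, cj_tr, tr_mul, inv_c, tr_mul_ci]
    have e3 : mC 1 (tr (b1 * n) * x, tr (b2 * n) * y, t) =
        (tr (b1 * n) * x, tr (b2 * n) * y, tr (b1 * n + p + y.ci * (b2 * n + q)) * t) := by
      simp only [mC, zpow_one, e2]
    rw [e1, e3]
    simp only [mD, zpow_one, s1, hn, tr_mul, D1_tr, tr_mul_c, ← mul_assoc]
    have e4 : nw x y t = tr ((1 + y.c) * (p + y.ci * q) + (1 + x.c) *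
        ((-(x.c * x.c) + y.c + x.c * x.c * y.c + y.ci + x.c * y.ci) * n)) := by
      rw [nw, rho_anti hp hq, hn, iw_tr, cj_tr, cj_tr, tr_mul, tr_mul, tr_mul]
      congr 1; noncomm_ring
    rw [e4, hw_anti hp hq]
    have hyci : x.c * y.ci = -(y.ci * x.c) := by
      have : y.ci * (x.c * y.c) * y.ci = y.ci * (-(y.c * x.c)) * y.ci := by rw [h]
      rw [mul_neg, ← mul_assoc y.ci y.c, ci_mul_c, one_mul, mul_assoc, mul_assoc x.c, c_mul_ci,
        mul_one, neg_mul] at this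
      rw [this, neg_neg]
    have key := I2 h3 h hyci (c_mul_ci y) (ci_mul_c y)
    have key1 : (1 + x.c - y.c - y.c * x.c) + (1 - x.c) * (1 + y.c) = -1 := by
      have h31 : (1 + 1 + 1 : Λ) = 0 := by rw [← h3]; norm_num
      have : (1 + x.c - y.c - y.c * x.c) + (1 - x.c) * (1 + y.c)
        = -1 + (1 + 1 + 1) - (x.c * y.c + y.c * x.c) := by noncomm_ring
      rw [this, h31, h]; simp
    have e5 : ∀ N M : Λ, cj (tr N) (tr M * x) = tr (N + M - x.c * N) * x := by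
      intro N M
      apply ext_c
      · simp [cj]
      · simp only [cj, mul_v, mul_c, tr_v, tr_c, inv_v, tr_ci, one_mul, tr_mul_v]
        noncomm_ring
    rw [e5]
    congr 2
    rw [← sub_eq_zero]
    have e6 : ∀ A B : Λ, A = 0 → B = 0 → A * (p + y.ci * q) + B * n = 0 := by
      intro A B hA hB; rw [hA, hB]; simp
    have e7 := e6 ((1 + x.c - y.c - y.c * x.c) + (1 - x.c) * (1 + y.c) + 1) _
      (by rw [key1]; simp) key
    rw [← e7, hb1, hb2]
    noncomm_ring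

end aff

end Pool.Agent.Helper878.Prim
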