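import Mathlib

set_option autoImplicit false

namespace Pool.Agent.Helper878.Skew

open LaurentPolynomial

instance : Fact (Nat.Prime 3) := ⟨Nat.prime_three⟩

/-- Laurent polynomials in `y` over the field with three elements -/
abbrev S : Type := LaurentPolynomial (ZMod 3)

/-- the unit `y` of `S` -/
noncomputable def yS : Sˣ := ⟨T 1, T (-1), by rw [← T_add]; simp, by rw [← T_add]; simp⟩

theorem yS_zpow (n : ℤ) : ((yS ^ n : Sˣ) : S) = T n := by
  induction n using Int.induction_on with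
  | zero => simp
  | succ n ih => rw [zpow_add_one, Units.val_mul, ih, yS, ← T_add]
  | pred n ih =>
    rw [zpow_sub_one, Units.val_mul, ih]
    change T (-(n : ℤ)) * T (-1) = _
    rw [← T_add]; rfl

/-- the endomorphism `y ↦ -y` -/
noncomputable def sg : S →+* S := eval₂ C (-yS)

theorem sg_C (a : ZMod 3) : sg (C a) = C a := by simp [sg]
theorem sg_T1 : sg (T 1) = - T 1 := by simp [sg, yS]

theorem map_yS : Units.map (sg : S →* S) yS = -yS := Units.ext sg_T1

theorem sg_T (n : ℤ) : sg (T n) = (((-yS) ^ n : Sˣ) : S) := by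
  rw [← yS_zpow, ← map_yS, ← map_zpow]; rfl

theorem sg_sg (p : S) : sg (sg p) = p := by
  induction p using LaurentPolynomial.induction_on' with
  | add p q hp hq => rw [map_add, map_add, hp, hq]
  | C_mul_T n a =>
    have h : sg (((-yS) ^ n : Sˣ) : S) = ((Units.map (sg : S →* S) (-yS) ^ n : Sˣ) : S) := by
      rw [← map_zpow]; rfl
    have h2 : Units.map (sg : S →* S) (-yS) = yS := by
      apply Units.ext
      have : sg (-(yS : S)) = yS := by
        rw [map_neg]
        change - sg (T 1) = T 1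
        rw [sg_T1, neg_neg]
      exact this
    rw [map_mul, map_mul, sg_C, sg_C, sg_T, h, h2, yS_zpow]

/-- the automorphism `y ↦ -y` -/
noncomputable def sgE : RingAut S := RingEquiv.ofRingHom sg sg (RingHom.ext sg_sg) (RingHom.ext sg_sg)

/-- the infinite cyclic group, written multiplicatively -/
abbrev Z : Type := Multiplicative ℤ

noncomputable instance act : MulSemiringAction Z S :=
  MulSemiringAction.compHom S (zpowersHom (RingAut S) sgE)

theorem smul_def (n : Z) (s : S) : n • s = (sgE ^ n.toAdd) s := rfl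

/-- the skew Laurent polynomial ring -/
abbrev Lam : Type := SkewMonoidAlgebra S Z

open SkewMonoidAlgebra

theorem coeff_ext {f g : Lam} (h : ∀ n, f.coeff n = g.coeff n) : f = g :=
  SkewMonoidAlgebra.ext h

theorem coeff_mul_top (f g : Lam) (a b : Z) (ha : ∀ n, f.coeff n ≠ 0 → n ≤ a)
    (hb : ∀ n, g.coeff n ≠ 0 → n ≤ b) : (f * g).coeff (a * b) = f.coeff a * a • g.coeff b := by
  rw [coeff_mul_left, SkewMonoidAlgebra.sum_def, Finsupp.sum]
  rw [Finset.sum_eq_single a]
  · simp
  · intro c hc hca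
    have h1 : c ≤ a := ha c (by simpa using hc)
    have h2 : c < a := lt_of_le_of_ne h1 hca
    have h3 : g.coeff (c⁻¹ * (a * b)) = 0 := by
      by_contra h
      have := hb _ h
      rw [← mul_assoc, mul_le_iff_le_one_left'] at this
      rw [inv_mul_le_iff_le_mul, mul_one] at this
      exact absurd this (not_le.mpr h2)
    rw [h3]; simp
  · intro h
    have : f.coeff a = 0 := by simpa using h
    rw [this]; simp

theorem coeff_mul_bot (f g : Lam) (a b : Z) (ha : ∀ n, f.coeff n ≠ 0 → a ≤ n)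
    (hb : ∀ n, g.coeff n ≠ 0 → b ≤ n) : (f * g).coeff (a * b) = f.coeff a * a • g.coeff b := by
  rw [coeff_mul_left, SkewMonoidAlgebra.sum_def, Finsupp.sum]
  rw [Finset.sum_eq_single a]
  · simp
  · intro c hc hca
    have h1 : a ≤ c := ha c (by simpa using hc)
    have h2 : a < c := lt_of_le_of_ne h1 (Ne.symm hca)
    have h3 : g.coeff (c⁻¹ * (a * b)) = 0 := by
      by_contra h
      have := hb _ h
      rw [← mul_assoc, le_mul_iff_one_le_left'] at this
      rw [le_inv_mul_iff_mul_le, mul_one] at this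
      exact absurd this (not_le.mpr h2)
    rw [h3]; simp
  · intro h
    have : f.coeff a = 0 := by simpa using h
    rw [this]; simp

theorem exists_top {f : Lam} (hf : f ≠ 0) : ∃ a, f.coeff a ≠ 0 ∧ ∀ n, f.coeff n ≠ 0 → n ≤ a := by
  have h : f.coeff.support.Nonempty := by
    rw [Finsupp.support_nonempty_iff]
    intro h; apply hf; apply coeff_ext; intro n; rw [h]; simp
  refine ⟨f.coeff.support.max' h, ?_, ?_⟩
  · exact Finsupp.mem_support_iff.mp (Finset.max'_mem _ h)
  · intro n hn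
    exact Finset.le_max' _ _ (Finsupp.mem_support_iff.mpr hn)

theorem exists_bot {f : Lam} (hf : f ≠ 0) : ∃ a, f.coeff a ≠ 0 ∧ ∀ n, f.coeff n ≠ 0 → a ≤ n := by
  have h : f.coeff.support.Nonempty := by
    rw [Finsupp.support_nonempty_iff]
    intro h; apply hf; apply coeff_ext; intro n; rw [h]; simp
  refine ⟨f.coeff.support.min' h, ?_, ?_⟩
  · exact Finsupp.mem_support_iff.mp (Finset.min'_mem _ h)
  · intro n hn
    exact Finset.min'_le _ _ (Finsupp.mem_support_iff.mpr hn)

theorem smul_ne {a : Z} {s : S} (h : s ≠ 0) : a • s ≠ 0 := by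
  rw [smul_def]
  intro h1
  apply h
  exact (RingEquiv.map_eq_zero_iff (sgE ^ a.toAdd)).mp h1

instance : NoZeroDivisors Lam := ⟨by
  intro f g hfg
  by_contra hne
  push Not at hne
  obtain ⟨a, ha, ha'⟩ := exists_top hne.1
  obtain ⟨b, hb, hb'⟩ := exists_top hne.2
  have h1 := coeff_mul_top f g a b ha' hb'
  rw [hfg] at h1
  have h2 : f.coeff a * a • g.coeff b ≠ 0 := mul_ne_zero ha (smul_ne hb)
  exact h2 (by rw [← h1]; simp)⟩

/-- a divisor of a nonzero element of degree zero is a monomial -/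
theorem monomial_of_dvd {m d : Lam} {c : S} (hc : c ≠ 0) (h : m * d = single 1 c) :
    ∃ (i : Z) (s : S), s ≠ 0 ∧ d = single i s := by
  have hne : (single 1 c : Lam) ≠ 0 := by
    intro h0
    apply hc
    exact SkewMonoidAlgebra.single_eq_zero.mp h0
  have hm : m ≠ 0 := by rintro rfl; apply hne; rw [← h, zero_mul]
  have hd : d ≠ 0 := by rintro rfl; apply hne; rw [← h, mul_zero]
  obtain ⟨a, ha, ha'⟩ := exists_top hm
  obtain ⟨b, hb, hb'⟩ := exists_top hd
  obtain ⟨a₀, ha₀, ha₀'⟩ := exists_bot hm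
  obtain ⟨b₀, hb₀, hb₀'⟩ := exists_bot hd
  have key : ∀ n : Z, (single 1 c : Lam).coeff n ≠ 0 → n = 1 := by
    intro n hn
    by_contra h1
    apply hn
    rw [coeff_single_apply, if_neg (fun h => h1 h.symm)]
  have h1 : a * b = 1 := by
    apply key
    rw [← h, coeff_mul_top m d a b ha' hb']
    exact mul_ne_zero ha (smul_ne hb)
  have h2 : a₀ * b₀ = 1 := by
    apply key
    rw [← h, coeff_mul_bot m d a₀ b₀ ha₀' hb₀']
    exact mul_ne_zero ha₀ (smul_ne hb₀)
  have h3 : a₀ ≤ a := ha₀' a ha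
  have h4 : b₀ ≤ b := hb₀' b hb
  have h5 : b = b₀ := by
    have e1 : b = a⁻¹ := eq_inv_of_mul_eq_one_right h1
    have e2 : b₀ = a₀⁻¹ := eq_inv_of_mul_eq_one_right h2
    apply le_antisymm _ h4
    rw [e1, e2]
    exact inv_le_inv_iff.mpr h3
  refine ⟨b, d.coeff b, hb, ?_⟩
  apply coeff_ext
  intro n
  rw [coeff_single_apply]
  by_cases hn : b = n
  · rw [if_pos hn, hn]
  · rw [if_neg hn]
    by_contra hn'
    exact hn (le_antisymm (h5 ▸ hb₀' n hn') (hb' n hn'))

/-- the generator of the infinite cyclic group -/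
def g1 : Z := Multiplicative.ofAdd 1

theorem g1_smul (s : S) : g1 • s = sg s := by
  rw [smul_def]; simp [g1, sgE]
theorem g1_inv_smul (s : S) : g1⁻¹ • s = sg s := by
  have : g1⁻¹ • (g1 • sg s) = sg s := inv_smul_smul _ _
  rw [g1_smul, sg_sg] at this
  exact this

/-- the unit `x` -/
noncomputable def xU : Lamˣ :=
  ⟨single g1 1, single g1⁻¹ 1, by rw [single_mul_single]; simp,
    by rw [single_mul_single]; simp⟩

/-- the unit `y` -/
noncomputable def yU : Lamˣ :=
  ⟨single 1 (T 1), single 1 (T (-1)), by rw [single_mul_single, one_smul, ← T_add]; simp,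
    by rw [single_mul_single, one_smul, ← T_add]; simp⟩

theorem xy : (xU : Lam) * yU = -(yU * xU) := by
  simp only [xU, yU]
  rw [single_mul_single, single_mul_single, g1_smul, sg_T1]
  simp [← single_neg]

theorem S_three : (3 : S) = 0 := by
  have h2 : (C ((3 : ℕ) : ZMod 3) : S) = ((3 : ℕ) : S) := map_natCast C 3
  have h3 : ((3 : ℕ) : ZMod 3) = 0 := by decide
  rw [h3, map_zero] at h2
  exact_mod_cast h2.symm

theorem three : (3 : Lam) = 0 := by
  have h2 : ((3 : ℕ) : Lam) = single 1 ((3 : ℕ) : S) := natCast_def 3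
  have h3 : ((3 : ℕ) : S) = 0 := by exact_mod_cast S_three
  rw [h3, single_zero] at h2
  exact_mod_cast h2

/-! ### identities -/

section ids
variable {Λ : Type*} [Ring Λ] {x y yi : Λ} (h3 : (3 : Λ) = 0) (h : x * y = -(y * x))
  (hyi : x * yi = -(yi * x)) (hk : y * yi = 1) (hk' : yi * y = 1)
include h3 h

theorem id_b : (1 + y) * (-((1 - y) * (1 + (1 + x) * (1 + x * y)))) +
    (1 + x) * ((1 - y * y) * (1 + x * y)) = -(1 - y * y) := by
  have h1 : ∀ w, x * (y * w) = -(y * (x * w)) := by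
    intro w; rw [← mul_assoc, h, neg_mul, mul_assoc]
  rw [← sub_eq_zero]
  simp only [mul_add, add_mul, mul_sub, sub_mul, mul_neg, neg_mul, mul_assoc, mul_one, one_mul,
    h1, h, neg_neg]
  abel_nf

theorem id_Q1 : -((1 - y) * (1 + (1 + x) * (1 + x * y))) =
    (1 - y) + (-((1 - y) * (1 - y))) * x + (-(y * (1 - y))) * (x * x) := by
  have h1 : ∀ w, x * (y * w) = -(y * (x * w)) := by
    intro w; rw [← mul_assoc, h, neg_mul, mul_assoc]
  have e2 : ∀ w : Λ, (-3 : ℤ) • w = 0 := by
    intro w; rw [zsmul_eq_mul]; simp [h3]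
  rw [← sub_eq_zero]
  simp only [mul_add, add_mul, mul_sub, sub_mul, mul_neg, neg_mul, mul_assoc, mul_one, one_mul,
    h1, h, neg_neg]
  abel_nf
  simp [e2, h3]

theorem id_v : -((1 - y) * (1 + (1 + x) * (1 + x * y))) * ((1 + x * x - x) * (1 + y)) =
    (1 + x * (1 + y) - x * x * (1 - y) - x * x * x * (1 + y) - x * x * x * x * y)
      * (1 - y * y) := by
  have h1 : ∀ w, x * (y * w) = -(y * (x * w)) := by
    intro w; rw [← mul_assoc, h, neg_mul, mul_assoc]
  have e2 : ∀ w : Λ, (-3 : ℤ) • w = 0 := by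
    intro w; rw [zsmul_eq_mul]; simp [h3]
  have e6 : (6 : Λ) = 0 := by
    have : (6 : Λ) = 2 * 3 := by norm_num
    rw [this, h3, mul_zero]
  have e7 : ∀ w : Λ, (-6 : ℤ) • w = 0 := by
    intro w; rw [zsmul_eq_mul]; simp [e6]
  rw [← sub_eq_zero]
  simp only [mul_add, add_mul, mul_sub, sub_mul, mul_neg, neg_mul, mul_assoc, mul_one, one_mul,
    h1, h, neg_neg]
  abel_nf
  simp [e2, e6, e7, h3]

omit h3 in
theorem id_v2 : (1 - y * y) * (1 + x * y) * ((1 + x * x - x) * (1 + y)) =
    (1 + x * y) * ((1 + x * x - x) * (1 + y)) * (1 - y * y) := by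
  have h1 : ∀ w, x * (y * w) = -(y * (x * w)) := by
    intro w; rw [← mul_assoc, h, neg_mul, mul_assoc]
  simp only [mul_add, add_mul, mul_sub, sub_mul, mul_neg, neg_mul, mul_assoc, mul_one, one_mul,
    h1, h, neg_neg]
  abel

include hyi hk hk'
theorem id_a : (x - yi) * (1 + y) * (-((1 - y) * (1 + (1 + x) * (1 + x * y)))) +
    (1 + x) * (x + yi) * ((1 - y * y) * (1 + x * y)) = 0 := by
  have h1 : ∀ w, x * (y * w) = -(y * (x * w)) := by
    intro w; rw [← mul_assoc, h, neg_mul, mul_assoc]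
  have h2 : ∀ w, x * (yi * w) = -(yi * (x * w)) := by
    intro w; rw [← mul_assoc, hyi, neg_mul, mul_assoc]
  have h4 : ∀ w, y * (yi * w) = w := by
    intro w; rw [← mul_assoc, hk, one_mul]
  have h5 : ∀ w, yi * (y * w) = w := by
    intro w; rw [← mul_assoc, hk', one_mul]
  have e2 : ∀ w : Λ, (-3 : ℤ) • w = 0 := by
    intro w; rw [zsmul_eq_mul]; simp [h3]
  simp only [mul_add, add_mul, mul_sub, sub_mul, mul_neg, neg_mul, mul_assoc, mul_one, one_mul,
    h1, h, h2, hyi, h4, h5, hk, hk', neg_neg]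
  abel_nf
  simp [e2, h3]

omit h3 hyi in
theorem id_yi : x * yi = -(yi * x) := by
  have h1 : yi * (x * y) * yi = yi * (-(y * x)) * yi := by rw [h]
  have h2 : yi * (x * y) * yi = yi * x := by
    rw [mul_assoc, mul_assoc, hk, mul_one]
  have h4 : yi * (-(y * x)) * yi = -(x * yi) := by
    rw [mul_neg, ← mul_assoc, hk', one_mul, neg_mul]
  rw [h2, h4] at h1
  rw [h1, neg_neg]

theorem NC_core (l11 q1 l21 q2 r1 r2 : Λ)
    (h11 : l11 * ((x - yi) * (1 + y)) + q1 * r1 = 1)
    (h12 : l11 * ((1 + x) * (x + yi)) + q1 * r2 = 0)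
    (h21 : l21 * ((x - yi) * (1 + y)) + q2 * r1 = 0)
    (h22 : l21 * ((1 + x) * (x + yi)) + q2 * r2 = 1) :
    ∃ d : Λ, q1 * d = (1 - y) + (-((1 - y) * (1 - y))) * x + (-(y * (1 - y))) * (x * x) ∧
      ((1 + y) * q1 + (1 + x) * q2) * d = -(1 - y * y) ∧
      ∀ d', d' * d = 1 → ∃ w, (1 + x * x - x) * (1 + y) = w * (1 - y * y) := by
  have ia := id_a h3 h hyi hk hk'
  have ib := id_b h3 h
  have iQ := id_Q1 h3 h
  have iv := id_v h3 h
  have iv2 := id_v2 h
  set e1 : Λ := (x - yi) * (1 + y) with he1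
  set e2 : Λ := (1 + x) * (x + yi) with he2
  set Q1 : Λ := -((1 - y) * (1 + (1 + x) * (1 + x * y))) with hQ1
  set Q2 : Λ := (1 - y * y) * (1 + x * y) with hQ2
  set d : Λ := r1 * Q1 + r2 * Q2 with hd
  have hq1 : q1 * d = Q1 := by
    have e : q1 * d = (l11 * e1 + q1 * r1) * Q1 + (l11 * e2 + q1 * r2) * Q2
      - l11 * (e1 * Q1 + e2 * Q2) := by rw [hd]; noncomm_ring
    rw [e, h11, h12, ia]; simp
  have hq2 : q2 * d = Q2 := by
    have e : q2 * d = (l21 * e1 + q2 * r1) * Q1 + (l21 * e2 + q2 * r2) * Q2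
      - l21 * (e1 * Q1 + e2 * Q2) := by rw [hd]; noncomm_ring
    rw [e, h21, h22, ia]; simp
  refine ⟨d, ?_, ?_, ?_⟩
  · rw [hq1, iQ]
  · rw [add_mul, mul_assoc, mul_assoc, hq1, hq2, ib]
  · intro d' hd'
    refine ⟨d' * (r1 * (1 + x * (1 + y) - x * x * (1 - y) - x * x * x * (1 + y) - x * x * x * x * y)
      + r2 * ((1 + x * y) * ((1 + x * x - x) * (1 + y)))), ?_⟩
    calc (1 + x * x - x) * (1 + y) = d' * d * ((1 + x * x - x) * (1 + y)) := by rw [hd', one_mul]
      _ = d' * (r1 * (Q1 * ((1 + x * x - x) * (1 + y))) + r2 * (Q2 * ((1 + x * x - x) * (1 + y)))) := by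
          rw [hd]; noncomm_ring
      _ = _ := by rw [iv, iv2]; noncomm_ring

end ids

/-! ### the key non-completability statement -/

/-- constants as a ring homomorphism -/
noncomputable def io : S →+* Lam where
  toFun s := single 1 s
  map_one' := rfl
  map_mul' a b := by rw [single_mul_single, one_smul, mul_one]
  map_zero' := single_zero 1
  map_add' a b := single_add 1 a b


theorem coeff_io_mul (s : S) (f : Lam) (n : Z) : (io s * f).coeff n = s * f.coeff n := by
  change (single 1 s * f).coeff n = _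
  rw [coeff_single_mul, inv_one, one_mul, one_smul]

theorem coeff_mul_io (s : S) (f : Lam) (n : Z) : (f * io s).coeff n = f.coeff n * n • s := by
  change (f * single 1 s).coeff n = _
  rw [coeff_mul_single, inv_one, mul_one]

theorem g1_ne : g1 ≠ 1 := by
  intro h
  have : (1 : ℤ) = 0 := congrArg Multiplicative.toAdd h
  omega

theorem g11_ne : g1 * g1 ≠ 1 := by
  intro h
  have : (1 + 1 : ℤ) = 0 := congrArg Multiplicative.toAdd h
  omega

theorem g11_ne' : g1 * g1 ≠ g1 := by
  intro h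
  have : (1 + 1 : ℤ) = 1 := congrArg Multiplicative.toAdd h
  omega

theorem evalS : ∃ f : S →+* ZMod 3, f (T 1) = 1 := ⟨eval₂ (RingHom.id _) 1, by simp⟩

/-- the inverse of `y` in the ring -/
noncomputable def yI : Lam := ((yU⁻¹ : Lamˣ) : Lam)
/-- `x` in the ring -/
noncomputable def xL : Lam := (xU : Lam)
/-- `y` in the ring -/
noncomputable def yL : Lam := (yU : Lam)

theorem yL_mul : yL * yI = 1 := Units.mul_inv _
theorem yI_mul : yI * yL = 1 := Units.inv_mul _
theorem xyL : xL * yL = -(yL * xL) := xy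
theorem xyI : xL * yI = -(yI * xL) := id_yi xyL yL_mul yI_mul

theorem y_io : yL = io (T 1) := rfl
theorem x_single : xL = single g1 1 := rfl
theorem xx_single : xL * xL = single (g1 * g1) 1 := by
  rw [x_single, single_mul_single, smul_one, mul_one]

theorem T2_ne : (T 1 * T 1 : S) ≠ 1 := by
  rw [← T_add, ← T_zero]
  intro h
  have h1 : (AddMonoidAlgebra.single (1 + 1 : ℤ) (1 : ZMod 3)) =
    (AddMonoidAlgebra.single (0 : ℤ) (1 : ZMod 3)) := h
  have h2 := congrArg (fun p : AddMonoidAlgebra (ZMod 3) ℤ => p.coeff 0) h1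
  simp at h2

theorem NC (l11 q1 l21 q2 r1 r2 : Lam)
    (h11 : l11 * ((xL - yI) * (1 + yL)) + q1 * r1 = 1)
    (h12 : l11 * ((1 + xL) * (xL + yI)) + q1 * r2 = 0)
    (h21 : l21 * ((xL - yI) * (1 + yL)) + q2 * r1 = 0)
    (h22 : l21 * ((1 + xL) * (xL + yI)) + q2 * r2 = 1) : False := by
  obtain ⟨d, hq1, hmd, hfin⟩ := NC_core three xyL xyI yL_mul yI_mul l11 q1 l21 q2 r1 r2 h11 h12 h21 h22
  -- `d` is a monomial
  have hc : -(1 - T 1 * T 1 : S) ≠ 0 := by
    intro h0
    rw [neg_eq_zero, sub_eq_zero] at h0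
    exact T2_ne h0.symm
  have hmd' : ((1 + yL) * q1 + (1 + xL) * q2) * d = single 1 (-(1 - T 1 * T 1 : S)) := by
    rw [hmd, y_io]
    change _ = io _
    rw [map_neg, map_sub, map_mul, map_one]
  obtain ⟨i, s, hs, hds⟩ := monomial_of_dvd hc hmd'
  -- coefficients of `Q1`
  have hQ : q1 * d = io (1 - T 1) + io (-((1 - T 1) * (1 - T 1))) * xL
      + io (-(T 1 * (1 - T 1))) * (xL * xL) := by
    rw [hq1, y_io, map_neg, map_neg, map_mul, map_mul, map_sub, map_one]
  have c0 : (q1 * d).coeff 1 = 1 - T 1 := by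
    have : (io (1 - T 1)).coeff 1 = 1 - T 1 := by
      change (single 1 _).coeff 1 = _
      rw [coeff_single_apply, if_pos rfl]
    rw [hQ, coeff_add, coeff_add, Finsupp.add_apply, Finsupp.add_apply, coeff_io_mul, coeff_io_mul,
      xx_single, x_single, this, coeff_single_apply, coeff_single_apply, if_neg g1_ne,
      if_neg g11_ne]
    simp
  have c1 : (q1 * d).coeff g1 = -((1 - T 1) * (1 - T 1)) := by
    have : (io (1 - T 1)).coeff g1 = 0 := by
      change (single 1 _).coeff g1 = _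
      rw [coeff_single_apply, if_neg (Ne.symm g1_ne)]
    rw [hQ, coeff_add, coeff_add, Finsupp.add_apply, Finsupp.add_apply, coeff_io_mul, coeff_io_mul,
      xx_single, x_single, this, coeff_single_apply, coeff_single_apply, if_pos rfl,
      if_neg g11_ne']
    simp
  rw [hds, coeff_mul_single, one_mul] at c0
  rw [hds, coeff_mul_single] at c1
  set D : S := i⁻¹ • s with hD
  have hD1 : (g1 * i⁻¹) • s = sg D := by rw [mul_smul, g1_smul]
  rw [hD1] at c1
  have c2 : sg (q1.coeff (g1 * i⁻¹)) * D = -((1 + T 1) * (1 + T 1)) := by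
    have := congrArg sg c1
    rw [map_mul, sg_sg] at this
    rw [this]
    simp [sg_T1]
  set A := q1.coeff i⁻¹ with hA
  set B := sg (q1.coeff (g1 * i⁻¹)) with hB
  have hunit : (-B + A - A * (1 - T 1)) * D = 1 := by
    have e1 : (-B + A - A * (1 - T 1)) * D = -(B * D) + A * D - (A * D) * (1 - T 1) := by ring
    rw [e1, c2, c0]
    have h3S := S_three
    linear_combination (T 1 : S) * h3S
  set E := -B + A - A * (1 - T 1) with hE
  -- `d` has a left inverse
  have hdinv : (single i⁻¹ E) * d = 1 := by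
    rw [hds, single_mul_single, ← hD, hunit, inv_mul_cancel]
    rfl
  obtain ⟨w, hw⟩ := hfin _ hdinv
  have hv : (1 + xL * xL - xL) * (1 + yL) = io (1 + T 1) + xL * xL * io (1 + T 1) - xL * io (1 + T 1) := by
    rw [y_io, show (1 + io (T 1)) = io (1 + T 1) by rw [map_add, map_one], sub_mul, add_mul, one_mul]
  have hv0 : ((1 + xL * xL - xL) * (1 + yL)).coeff 1 = 1 + T 1 := by
    have : (io (1 + T 1)).coeff 1 = 1 + T 1 := by
      change (single 1 _).coeff 1 = _
      rw [coeff_single_apply, if_pos rfl]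
    rw [hv, coeff_sub, coeff_add, Finsupp.sub_apply, Finsupp.add_apply, coeff_mul_io, coeff_mul_io,
      xx_single, x_single, this, coeff_single_apply, coeff_single_apply, if_neg g1_ne,
      if_neg g11_ne]
    simp
  have hw0 : (w * (1 - yL * yL)).coeff 1 = w.coeff 1 * (1 - T 1 * T 1) := by
    have : (1 - yL * yL) = io (1 - T 1 * T 1) := by
      rw [y_io, map_sub, map_mul, map_one]
    rw [this, coeff_mul_io, one_smul]
  rw [hw, hw0] at hv0
  obtain ⟨f, hf⟩ := evalS
  have := congrArg f hv0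
  rw [map_mul, map_sub, map_mul, map_add, hf, f.map_one] at this
  revert this
  simp
  decide

end Pool.Agent.Helper878.Skew
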