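import Pool.Agent.Helper878.Prim
import Pool.Agent.Helper878.Skew

set_option autoImplicit false

namespace Pool.Agent.Helper878.PrimMain

open Pool.Agent.Helper878.Prim Pool.Agent.Helper878.Skew

/-! ### commuting up to sign -/

section sign
variable {Λ : Type*} [Ring Λ]

/-- the units commuting or anticommuting with `h` -/
def Cm (h : Λˣ) : Subgroup Λˣ where
  carrier := {g | (g : Λ) * h = h * g ∨ (g : Λ) * h = -(h * g)}
  one_mem' := Or.inl (by simp)
  mul_mem' := by
    intro a b ha hb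
    simp only [Set.mem_ofPred_eq, Units.val_mul] at *
    rcases ha with ha | ha <;> rcases hb with hb | hb
    · left; rw [mul_assoc, hb, ← mul_assoc, ha, mul_assoc]
    · right; rw [mul_assoc, hb, mul_neg, ← mul_assoc, ha, mul_assoc]
    · right; rw [mul_assoc, hb, ← mul_assoc, ha, neg_mul, mul_assoc]
    · left; rw [mul_assoc, hb, mul_neg, ← mul_assoc, ha, neg_mul, neg_neg, mul_assoc]
  inv_mem' := by
    intro a ha
    simp only [Set.mem_ofPred_eq] at *
    rcases ha with ha | ha
    · left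
      have : ((a⁻¹ : Λˣ) : Λ) * ((a : Λ) * h) * (a⁻¹ : Λˣ) = (a⁻¹ : Λˣ) * (h * a) * (a⁻¹ : Λˣ) := by rw [ha]
      rw [← mul_assoc, Units.inv_mul, one_mul, mul_assoc, mul_assoc, Units.mul_inv, mul_one] at this
      exact this.symm
    · right
      have : ((a⁻¹ : Λˣ) : Λ) * ((a : Λ) * h) * (a⁻¹ : Λˣ) = (a⁻¹ : Λˣ) * (-(h * a)) * (a⁻¹ : Λˣ) := by
        rw [ha]
      rw [← mul_assoc, Units.inv_mul, one_mul, mul_neg, neg_mul, mul_assoc, mul_assoc, Units.mul_inv,
        mul_one] at this
      rw [this, neg_neg]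

theorem Cm_symm {g h : Λˣ} (hg : g ∈ Cm h) : h ∈ Cm g := by
  rcases hg with hg | hg
  · exact Or.inl hg.symm
  · right; rw [hg, neg_neg]

theorem closure_Cm {x y : Λˣ} (h : (x : Λ) * y = -(y * x)) {g k : Λˣ}
    (hg : g ∈ Subgroup.closure {x, y}) (hk : k ∈ Subgroup.closure {x, y}) : g ∈ Cm k := by
  have h1 : ∀ z ∈ ({x, y} : Set Λˣ), Subgroup.closure {x, y} ≤ Cm z := by
    intro z hz
    rw [Subgroup.closure_le]
    intro w hw
    rcases hz with rfl | hz <;> rcases hw with rfl | hw
    · exact Or.inl rfl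
    · rw [Set.mem_singleton_iff] at hw; subst hw
      exact Cm_symm (Or.inr h)
    · rw [Set.mem_singleton_iff] at hz; subst hz
      exact Or.inr h
    · rw [Set.mem_singleton_iff] at hz hw; subst hz; subst hw
      exact Or.inl rfl
  have h2 : Subgroup.closure {x, y} ≤ Cm g := by
    rw [Subgroup.closure_le]
    intro z hz
    exact Cm_symm (h1 z hz hg)
  exact Cm_symm (h2 hk)

end sign

/-- the group of monomials -/
noncomputable def Gam : Subgroup Lamˣ := Subgroup.closure {xU, yU}

theorem hGam (a b : Aff Gam) : a.c * b.c = b.c * a.c ∨ a.c * b.c = -(b.c * a.c) :=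
  closure_Cm xy a.u.2 b.u.2

/-- the group generating the variety -/
abbrev TT : Type := Aff Gam

/-! ### linearity -/

section lin
variable {Λ : Type*} [Ring Λ] {Γ : Subgroup Λˣ}

/-- pairs with the same linear part and vectors in a common submodule -/
def Hsub (A B C D : Λ) : Subgroup (Aff Γ × Aff Γ) where
  carrier := {p | p.1.u = p.2.u ∧ ∃ l l' : Λ, p.1.v = l * A + l' * C ∧ p.2.v = l * B + l' * D}
  one_mem' := ⟨rfl, 0, 0, by simp, by simp⟩
  mul_mem' := by
    rintro ⟨p, p'⟩ ⟨q, q'⟩ ⟨hu, l, l', h1, h2⟩ ⟨hu', m, m', h3, h4⟩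
    refine ⟨?_, l + p.c * m, l' + p.c * m', ?_, ?_⟩
    · change p.u * q.u = p'.u * q'.u
      simp only at hu hu'
      rw [hu, hu']
    · change p.v + p.c * q.v = _
      simp only at h1 h3
      rw [h1, h3]; noncomm_ring
    · change p'.v + p'.c * q'.v = _
      simp only at h2 h4 hu
      have : p'.c = p.c := by simp only [Aff.c, hu]
      rw [h2, h4, this]; noncomm_ring
  inv_mem' := by
    rintro ⟨p, p'⟩ ⟨hu, l, l', h1, h2⟩
    refine ⟨?_, -(p.ci * l), -(p.ci * l'), ?_, ?_⟩
    · change p.u⁻¹ = p'.u⁻¹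
      simp only at hu
      rw [hu]
    · change -(p.ci * p.v) = _
      simp only at h1
      rw [h1]; noncomm_ring
    · change -(p'.ci * p'.v) = _
      simp only at h2 hu
      have : p'.ci = p.ci := by simp only [Aff.ci, hu]
      rw [h2, this]; noncomm_ring

/-- the projection to the linear part -/
def uHom : Aff Γ →* Γ where
  toFun a := a.u
  map_one' := rfl
  map_mul' _ _ := rfl

theorem lift_u {α : Type*} (f f' : α → Aff Γ) (h : ∀ i, (f i).u = (f' i).u) (w : FreeGroup α) :
    (FreeGroup.lift f w).u = (FreeGroup.lift f' w).u := by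
  have : uHom.comp (FreeGroup.lift f) = uHom.comp (FreeGroup.lift f') := by
    ext i
    simp [uHom, h i]
  exact DFunLike.congr_fun this w

end lin

/-! ### the element `h` is not primitive in rank two -/

/-- generic points -/
noncomputable def xG : Gam := ⟨xU, Subgroup.subset_closure (by simp)⟩
noncomputable def yG : Gam := ⟨yU, Subgroup.subset_closure (by simp)⟩
noncomputable def fa : Fin 2 → TT := ![⟨xG, 1⟩, ⟨yG, 0⟩]
noncomputable def fb : Fin 2 → TT := ![⟨xG, 0⟩, ⟨yG, 1⟩]

theorem val_a {Λ : Type*} [Ring Λ] {x y yi : Λ} (hk' : yi * y = 1) :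
    -((1 - (x - 1) * ((1 + y) * 1 + (1 + x) * 0)) + yi * (0 - (y - 1) * ((1 + y) * 1 + (1 + x) * 0)))
      + 1 = (x - yi) * (1 + y) := by
  have h5 : ∀ w, yi * (y * w) = w := by
    intro w; rw [← mul_assoc, hk', one_mul]
  simp only [mul_add, add_mul, mul_sub, sub_mul, mul_neg, neg_mul, mul_assoc, mul_one, one_mul,
    h5, hk', neg_neg, mul_zero]
  abel

theorem val_b {Λ : Type*} [Ring Λ] {x y yi : Λ} (h3 : (3 : Λ) = 0)
    (hyi : x * yi = -(yi * x)) (hk' : yi * y = 1) :
    -((0 - (x - 1) * ((1 + y) * 0 + (1 + x) * 1)) + yi * (1 - (y - 1) * ((1 + y) * 0 + (1 + x) * 1)))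
      + 0 = (1 + x) * (x + yi) := by
  have h5 : ∀ w, yi * (y * w) = w := by
    intro w; rw [← mul_assoc, hk', one_mul]
  have e2 : ∀ w : Λ, (-3 : ℤ) • w = 0 := by
    intro w; rw [zsmul_eq_mul]; simp [h3]
  rw [← sub_eq_zero]
  simp only [mul_add, add_mul, mul_sub, sub_mul, mul_neg, neg_mul, mul_assoc, mul_one, one_mul,
    h5, hk', hyi, neg_neg, mul_zero]
  abel_nf
  simp [e2]

theorem hw_val_a : (hw (fa 0) (fa 1)).v = (xL - yI) * (1 + yL) := by
  have h : (fa 0).c * (fa 1).c = -((fa 1).c * (fa 0).c) := xy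
  rw [hw_anti (PT_anti three h _) (PT_anti three h _), tr_mul_v]
  exact val_a yI_mul

theorem hw_val_b : (hw (fb 0) (fb 1)).v = (1 + xL) * (xL + yI) := by
  have h : (fb 0).c * (fb 1).c = -((fb 1).c * (fb 0).c) := xy
  rw [hw_anti (PT_anti three h _) (PT_anti three h _), tr_mul_v]
  exact val_b three xyI yI_mul

theorem NP (a b : Fin 2 → FreeGroup (Fin 2))
    (hab : ∀ j (f : Fin 2 → TT), FreeGroup.lift f (FreeGroup.lift a (b j)) = f j)
    (i : Fin 2) (hi : ∀ f : Fin 2 → TT, FreeGroup.lift f (a i) = hw (f 0) (f 1)) : False := by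
  obtain ⟨i', hi'⟩ : ∃ i' : Fin 2, ∀ j, j = i ∨ j = i' := by
    fin_cases i
    · exact ⟨1, by intro j; fin_cases j <;> simp⟩
    · exact ⟨0, by intro j; fin_cases j <;> simp⟩
  set A := (FreeGroup.lift fa (a i)).v with hA
  set B := (FreeGroup.lift fb (a i)).v with hB
  set C := (FreeGroup.lift fa (a i')).v with hC
  set D := (FreeGroup.lift fb (a i')).v with hD
  have hu : ∀ i, (fa i).u = (fb i).u := by intro i; fin_cases i <;> rfl
  let F : FreeGroup (Fin 2) →* TT × TT :=
    MonoidHom.prod ((FreeGroup.lift fa).comp (FreeGroup.lift a))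
      ((FreeGroup.lift fb).comp (FreeGroup.lift a))
  have hF : ∀ w, F w ∈ Hsub A B C D := by
    intro w
    have h1 : F = FreeGroup.lift (fun j => (FreeGroup.lift fa (a j), FreeGroup.lift fb (a j))) := by
      ext j <;> simp [F]
    have h2 : F.range ≤ Hsub A B C D := by
      rw [h1, FreeGroup.range_lift_eq_closure, Subgroup.closure_le]
      rintro _ ⟨j, rfl⟩
      refine ⟨lift_u fa fb hu _, ?_⟩
      rcases hi' j with rfl | rfl
      · exact ⟨1, 0, by simp [hA], by simp [hB]⟩
      · exact ⟨0, 1, by simp [hC], by simp [hD]⟩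
    exact h2 ⟨w, rfl⟩
  obtain ⟨-, l, l', e1, e2⟩ := hF (b 0)
  obtain ⟨-, m, m', e3, e4⟩ := hF (b 1)
  simp only [F, MonoidHom.prod_apply, MonoidHom.comp_apply, hab] at e1 e2 e3 e4
  have hAv : A = (xL - yI) * (1 + yL) := by rw [hA, hi, hw_val_a]
  have hBv : B = (1 + xL) * (xL + yI) := by rw [hB, hi, hw_val_b]
  apply NC l l' m m' C D
  · rw [← hAv]; exact e1.symm
  · rw [← hBv]; exact e2.symm
  · rw [← hAv]; exact e3.symm
  · rw [← hBv]; exact e4.symm

/-! ### laws -/

/-- the laws of the group `TT` -/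
def laws : Set (FreeGroup ℕ) := {w | ∀ f : ℕ → TT, FreeGroup.lift f w = 1}

/-- the laws of `TT` in `r` variables -/
def K (r : ℕ) : Subgroup (FreeGroup (Fin r)) where
  carrier := {w | ∀ f : Fin r → TT, FreeGroup.lift f w = 1}
  one_mem' := by intro f; simp
  mul_mem' := by intro a b ha hb f; rw [map_mul, ha f, hb f, one_mul]
  inv_mem' := by intro a ha f; rw [map_inv, ha f, inv_one]

theorem mem_K {r : ℕ} {w : FreeGroup (Fin r)} :
    w ∈ K r ↔ ∀ f : Fin r → TT, FreeGroup.lift f w = 1 := Iff.rfl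

instance (r : ℕ) : (K r).Normal := ⟨by
  intro n hn g f
  rw [map_mul, map_mul, hn f, map_inv, mul_one, mul_inv_cancel]⟩

theorem lift_lift {α β : Type*} {G : Type*} [Group G] (f : β → G) (g : α → FreeGroup β)
    (w : FreeGroup α) : FreeGroup.lift f (FreeGroup.lift g w) =
      FreeGroup.lift (fun a => FreeGroup.lift f (g a)) w := by
  have : (FreeGroup.lift f).comp (FreeGroup.lift g) =
      FreeGroup.lift (fun a => FreeGroup.lift f (g a)) := by ext a; simp
  exact DFunLike.congr_fun this w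

theorem instances_eq (r : ℕ) :
    {x : FreeGroup (Fin r) | ∃ u ∈ laws, ∃ g : ℕ → FreeGroup (Fin r), FreeGroup.lift g u = x} =
      (K r : Set (FreeGroup (Fin r))) := by
  ext x
  constructor
  · rintro ⟨u, hu, g, rfl⟩ f
    rw [lift_lift]
    exact hu _
  · intro hx
    refine ⟨FreeGroup.map Fin.val x, ?_, fun n => if h : n < r then FreeGroup.of ⟨n, h⟩ else 1, ?_⟩
    · intro f
      have : FreeGroup.lift f (FreeGroup.map Fin.val x) = FreeGroup.lift (fun i : Fin r => f i) x := by
        have : (FreeGroup.lift f).comp (FreeGroup.map Fin.val) =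
            FreeGroup.lift (fun i : Fin r => f i) := FreeGroup.ext_hom _ _ (fun a => by simp)
        exact DFunLike.congr_fun this x
      rw [this]
      exact hx _
    · have : (FreeGroup.lift (fun n => if h : n < r then FreeGroup.of (⟨n, h⟩ : Fin r) else 1)).comp
          (FreeGroup.map Fin.val) = MonoidHom.id (FreeGroup (Fin r)) := by ext a; simp
      exact DFunLike.congr_fun this x

end Pool.Agent.Helper878.PrimMain
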